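import Pool.Agent.helper12.TZ.SpecI
import Pool.Agent.helper31.DI.C16
import Pool.Agent.helper83.GR.Ari

/-! Row IOM of TZ. -/

set_option autoImplicit false

namespace Pool.Agent.TZ

open Pool.Agent.helper58.DC Pool.Agent.DI Pool.Agent.GR Pool.Agent.OB

theorem IOM_act {G E A : Type} [Group G] [Group E] [Group A] (X : Extension G E A) (e : E) (g k : G)
    (h : e * X.inc g * e⁻¹ = X.inc k) : X.act e g = k := by
  apply X.inc_injective
  rw [X.act_spec, h]

theorem IOM_om (hOM : OM_stmt) {G E A : Type} [Group G] [Group E] [Group A] [Finite G] (X : Extension G E A)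
    (M : Ideal (integralClosure ℤ ℂ)) (χ : G → ℂ) (hst : Stable X M χ) (e : E) (g : G) :
    ∃ a ∈ M, omega χ (X.act e g) - omega χ g = ((a : integralClosure ℤ ℂ) : ℂ) := by
  obtain ⟨a, ha, h⟩ := hst e⁻¹ g
  refine ⟨a, ha, ?_⟩
  have h1 := hOM G (X.act e⁻¹) χ (X.act e g)
  have h2 : X.act e⁻¹ (X.act e g) = g := by
    rw [map_inv]
    exact MulAut.inv_apply_self G (X.act e) g
  rw [h2] at h1
  rw [← h1]
  exact h

/-- the action of `E` on the classes of `G` -/
@[instance_reducible] noncomputable def IOM_action {G E A : Type} [Group G] [Group E] [Group A] (X : Extension G E A) :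
    MulAction E (ConjClasses G) where
  smul e c := ConjClasses.map (X.act e).toMonoidHom c
  one_smul c := by
    obtain ⟨g, rfl⟩ := ConjClasses.exists_rep c
    change ConjClasses.mk ((X.act 1) g) = ConjClasses.mk g
    rw [map_one]
    rfl
  mul_smul a b c := by
    obtain ⟨g, rfl⟩ := ConjClasses.exists_rep c
    change ConjClasses.mk ((X.act (a * b)) g) = ConjClasses.mk ((X.act a) ((X.act b) g))
    rw [map_mul]
    rfl

theorem IOM_card {G E A : Type} [Group G] [Group E] [Group A] (X : Extension G E A) (g : G) :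
    {c : ConjClasses G | ∃ e : E, ConjClasses.mk (X.act e g) = c}.ncard ∣ Nat.card A := by
  letI := IOM_action X
  have h1 : {c : ConjClasses G | ∃ e : E, ConjClasses.mk (X.act e g) = c} =
      MulAction.orbit E (ConjClasses.mk g) := by
    ext c
    rfl
  rw [h1, ← MulAction.index_stabilizer]
  have h2 : X.proj.ker ≤ MulAction.stabilizer E (ConjClasses.mk g) := by
    intro e he
    obtain ⟨k, hk⟩ := (X.exact e).1 he
    rw [MulAction.mem_stabilizer_iff]
    change ConjClasses.mk ((X.act e) g) = ConjClasses.mk g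
    have h3 : X.act e g = k * g * k⁻¹ := by
      apply IOM_act
      rw [← hk]
      simp
    rw [h3, ConjClasses.mk_eq_mk_iff_isConj]
    exact IsConj.symm (isConj_iff.2 ⟨k, rfl⟩)
  have h3 := Subgroup.index_dvd_of_le h2
  rw [Subgroup.index_ker, MonoidHom.range_eq_top.2 X.proj_surjective, Subgroup.card_top] at h3
  exact h3

theorem IOM (hOM : OM_stmt) : IOM_stmt := by
  classical
  intro p M hS G E A _ _ _ _ _ X χ _ hst g
  have := Fintype.ofFinite G
  have := Fintype.ofFinite E
  have := Fintype.ofFinite (ConjClasses G)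
  choose r hr using fun c : ConjClasses G => ConjClasses.exists_rep c
  set S : Finset (ConjClasses G) :=
    (Finset.univ : Finset (ConjClasses G)).filter (fun c => IsConj (X.inc g) (X.inc (r c))) with hSdef
  refine ⟨S.card, ?_, ?_⟩
  · have h1 : (S : Set (ConjClasses G)) = {c : ConjClasses G | ∃ e : E, ConjClasses.mk (X.act e g) = c} := by
      ext c
      simp only [hSdef, Finset.coe_filter, Finset.mem_univ, true_and, Set.mem_setOf_eq]
      constructor
      · intro h
        obtain ⟨e, he⟩ := isConj_iff.1 h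
        refine ⟨e, ?_⟩
        rw [IOM_act X e g (r c) he, hr]
      · rintro ⟨e, he⟩
        rw [← hr c, ConjClasses.mk_eq_mk_iff_isConj] at he
        have h2 : IsConj (X.inc g) (X.inc (X.act e g)) := isConj_iff.2 ⟨e, (X.act_spec e g).symm⟩
        exact h2.trans (X.inc.map_isConj he)
    rw [← Set.ncard_coe_finset, h1]
    exact IOM_card X g
  · rw [C16_om r hr X.inc X.inc_injective χ (X.inc g), ← nsmul_eq_mul, ← Finset.sum_const,
      ← Finset.sum_sub_distrib]
    apply InM.sum hS
    intro c hc
    obtain ⟨e, he⟩ := isConj_iff.1 (Finset.mem_filter.1 hc).2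
    rw [← IOM_act X e g (r c) he]
    obtain ⟨a, ha, h⟩ := IOM_om hOM X M χ hst e g
    rw [h]
    exact InM.coe hS ha

end Pool.Agent.TZ
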